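import Mathlib
import Pool.Agent.H56.EH.Def2

/-!
# Discrete KKM lemma (Sperner's lemma) for monotone tuples

The vertices are the multisets of size `k` in `{0, .., N}`, the simplices are ALL the functions
`w : Fin k → {0, .., N - 1}`; the vertices of `w` are the multisets of the `w s + [s < j]`,
`0 ≤ j ≤ k`.
-/

namespace Pool.Agent.H57.EH

open Finset

/-- the determinant over `F_2` of the indicator matrix of the labels -/
def D (m : ℕ) (l : Fin (m + 1) → ℕ) : ZMod 2 :=
  Matrix.det (Matrix.of fun i c : Fin (m + 1) => if l i = c.val then (1 : ZMod 2) else 0)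

theorem D_zero {m : ℕ} {l : Fin (m + 1) → ℕ} (c : Fin (m + 1)) (h : ∀ i, l i ≠ c.val) :
    D m l = 0 := by
  refine Matrix.det_eq_zero_of_column_eq_zero c fun i => ?_
  rw [Matrix.of_apply, if_neg (h i)]

theorem D_succ {m : ℕ} (l : Fin (m + 2) → ℕ) (h : ∀ i, l i ≤ m + 1) :
    D (m + 1) l = ∑ i : Fin (m + 2), D m (fun j => l (i.succAbove j)) := by
  set A : Matrix (Fin (m + 2)) (Fin (m + 2)) (ZMod 2) :=
    Matrix.of fun i c : Fin (m + 2) => if l i = c.val then (1 : ZMod 2) else 0 with hA
  have h2 : ∀ k, ∑ i, A k i = 1 := by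
    intro k
    have h3 : l k < m + 2 := Nat.lt_succ_of_le (h k)
    rw [Finset.sum_eq_single (⟨l k, h3⟩ : Fin (m + 2))]
    · simp [hA]
    · intro b _ hb
      have : l k ≠ b.val := fun h4 => hb (Fin.ext h4.symm)
      simp [hA, this]
    · intro h4
      exact absurd (Finset.mem_univ _) h4
  have h1 : (A.updateCol (Fin.last (m + 1)) fun _ => 1).det = A.det := by
    have h3 := Matrix.det_updateCol_sum A (Fin.last (m + 1)) (fun _ => 1)
    simpa only [one_smul, h2] using h3
  show A.det = _
  rw [← h1, Matrix.det_succ_column _ (Fin.last (m + 1))]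
  refine Finset.sum_congr rfl fun i _ => ?_
  rw [Matrix.updateCol_self]
  have h5 : ((-1 : ZMod 2)) ^ ((i : ℕ) + (Fin.last (m + 1) : Fin (m + 2)).val) = 1 := by
    have : (-1 : ZMod 2) = 1 := by decide
    rw [this, one_pow]
  rw [h5, one_mul, one_mul]
  unfold D
  congr 1
  ext a b
  rw [Matrix.submatrix_apply, Fin.succAbove_last, Matrix.updateCol_ne (Fin.castSucc_lt_last b).ne]
  simp [hA]

/-- the vertices of the simplex `w` -/
def vx {k N : ℕ} (w : Fin k → Fin N) (j : ℕ) : Multiset ℕ :=
  ((List.ofFn fun s : Fin k => (w s).val + if s.val < j then 1 else 0 : List ℕ) : Multiset ℕ)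

theorem vx_card {k N : ℕ} (w : Fin k → Fin N) (j : ℕ) : Multiset.card (vx w j) = k := by
  simp [vx]

theorem vx_le {k N : ℕ} (w : Fin k → Fin N) (j : ℕ) : ∀ t ∈ vx w j, t ≤ N := by
  intro t ht
  simp only [vx, Multiset.mem_coe, List.mem_ofFn] at ht
  obtain ⟨s, rfl⟩ := ht
  have := (w s).isLt
  split_ifs <;> omega

theorem vx_filter {k N : ℕ} (w : Fin k → Fin N) (j b : ℕ) :
    Multiset.card ((vx w j).filter (· ≤ b)) =
      (univ.filter fun s : Fin k => (w s).val + (if s.val < j then 1 else 0) ≤ b).card := by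
  have h : vx w j = (univ : Finset (Fin k)).val.map
      fun s : Fin k => (w s).val + if s.val < j then 1 else 0 := by
    rw [Fin.univ_val_map]
    rfl
  rw [h, Multiset.filter_map, Multiset.card_map]
  rfl

theorem vx_cons {m N : ℕ} (a : Fin N) (u : Fin m → Fin N) (j : ℕ) :
    vx (Fin.cons a u : Fin (m + 1) → Fin N) (j + 1) = (a.val + 1) ::ₘ vx u j := by
  unfold vx
  rw [List.ofFn_succ, ← Multiset.cons_coe]
  simp

theorem vx_snoc {m N : ℕ} (b : Fin N) (u : Fin m → Fin N) (j : ℕ) (hj : j ≤ m) :
    vx (Fin.snoc u b : Fin (m + 1) → Fin N) j = b.val ::ₘ vx u j := by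
  unfold vx
  rw [List.ofFn_succ', List.concat_eq_append, ← Multiset.coe_add, add_comm,
    Multiset.coe_singleton, Multiset.singleton_add]
  have h1 : ¬ m < j := not_lt.2 hj
  simp [h1]

theorem vx_perm {k N : ℕ} (w : Fin k → Fin N) (σ : Equiv.Perm (Fin k)) (j : ℕ)
    (h : ∀ s, (σ s).val < j ↔ s.val < j) : vx (w ∘ σ) j = vx w j := by
  unfold vx
  rw [Multiset.coe_eq_coe]
  have h1 : (fun s : Fin k => ((w ∘ σ) s).val + if s.val < j then 1 else 0) =
      (fun s : Fin k => (w s).val + if s.val < j then 1 else 0) ∘ σ := by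
    funext s
    simp only [Function.comp_apply, h s]
  rw [h1]
  exact Equiv.Perm.ofFn_comp_perm σ _

/-- the Sperner condition -/
def Sp (k N : ℕ) (L : Multiset ℕ → ℕ) : Prop :=
  ∀ s : Multiset ℕ, Multiset.card s = k → (∀ t ∈ s, t ≤ N) →
    ∃ a < N, Multiset.card (s.filter (· ≤ a)) = L s

/-- a facet on which two increments are in the same place -/
theorem missing {m N : ℕ} (w : Fin (m + 1) → Fin N) (p q : Fin (m + 1)) (hpq : p.val + 1 = q.val)
    (hw : w p = w q) : ∃ c : Fin (m + 1), ∀ j, j ≠ q.val → ∀ b,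
      Multiset.card ((vx w j).filter (· ≤ b)) ≠ c.val := by
  classical
  set T : Finset (Fin (m + 1)) := univ.filter fun s => w s < w q ∨ (w s = w q ∧ q ≤ s) with hT
  have hq : q ∈ T := by simp [hT]
  have hp : p ∉ T := by
    simp only [hT, mem_filter, mem_univ, true_and, not_or, not_and]
    refine ⟨by rw [hw]; exact lt_irrefl _, fun _ => ?_⟩
    rw [Fin.le_def]
    omega
  have hc : T.card < m + 1 := by
    have h1 : T.card < (univ : Finset (Fin (m + 1))).card :=
      Finset.card_lt_card ⟨Finset.subset_univ _, fun h => hp (h (mem_univ p))⟩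
    simpa using h1
  refine ⟨⟨T.card, hc⟩, fun j hj b => ?_⟩
  rw [vx_filter]
  have hpj : (p.val < j ↔ q.val < j) := by omega
  by_cases hb : (w q).val + (if q.val < j then 1 else 0) ≤ b
  · -- the filter contains T and p
    refine ne_of_gt (Finset.card_lt_card ⟨fun s hs => ?_, fun h => hp (h ?_)⟩)
    · rw [mem_filter]
      refine ⟨mem_univ _, ?_⟩
      rw [hT, mem_filter] at hs
      rcases hs.2 with h | ⟨h, h'⟩
      · have := Fin.lt_def.1 h
        split_ifs at hb ⊢ <;> omega
      · have h1 := Fin.le_def.1 h'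
        rw [h]
        split_ifs at hb ⊢ <;> omega
    · rw [mem_filter]
      refine ⟨mem_univ _, ?_⟩
      rw [hw]
      simp only [hpj]
      exact hb
  · -- the filter is contained in T without q
    refine ne_of_lt (show _ < T.card from Finset.card_lt_card ⟨fun s hs => ?_, fun h => ?_⟩)
    · rw [mem_filter] at hs
      rw [hT, mem_filter]
      refine ⟨mem_univ _, ?_⟩
      have hs2 := hs.2
      by_contra hcon
      simp only [not_or, not_and, not_lt, not_le] at hcon
      rcases lt_or_eq_of_le hcon.1 with h | h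
      · have := Fin.lt_def.1 h
        split_ifs at hb hs2 <;> omega
      · have h1 := hcon.2 h.symm
        have h2 := Fin.lt_def.1 h1
        rw [← h] at hs2
        split_ifs at hb hs2 <;> omega
    · have := h hq
      rw [mem_filter] at this
      exact hb this.2

theorem S_one (k : ℕ) : ∀ (N : ℕ) (L : Multiset ℕ → ℕ), Sp k N L →
    ∑ w : Fin k → Fin N, D k (fun j => L (vx w j.val)) = 1 := by
  induction k with
  | zero =>
    intro N L h
    rw [Fintype.sum_unique]
    obtain ⟨a, -, ha⟩ := h (vx (default : Fin 0 → Fin N) 0) (vx_card _ _) (vx_le _ _)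
    have h0 : L (vx (default : Fin 0 → Fin N) 0) = 0 := by
      rw [← ha]
      have := Multiset.card_le_card (Multiset.filter_le (· ≤ a) (vx (default : Fin 0 → Fin N) 0))
      rw [vx_card] at this
      omega
    unfold D
    refine (Matrix.det_fin_one _).trans ?_
    simp [h0]
  | succ m ih =>
    intro N L h
    have hle : ∀ (w : Fin (m + 1) → Fin N) (j : ℕ), L (vx w j) ≤ m + 1 := by
      intro w j
      obtain ⟨a, -, ha⟩ := h (vx w j) (vx_card _ _) (vx_le _ _)
      have := Multiset.card_le_card (Multiset.filter_le (· ≤ a) (vx w j))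
      rw [vx_card] at this
      rw [← ha]
      exact this
    have h1 : ∀ w : Fin (m + 1) → Fin N, D (m + 1) (fun j => L (vx w j.val)) =
        ∑ i : Fin (m + 2), D m (fun j => L (vx w (i.succAbove j).val)) := fun w =>
      D_succ _ fun j => hle w j.val
    simp only [h1]
    rw [Finset.sum_comm, Fin.sum_univ_succ, Fin.sum_univ_castSucc]
    -- the middle facets
    have hmid : ∀ i : Fin m, ∑ w : Fin (m + 1) → Fin N,
        D m (fun j => L (vx w ((i.castSucc.succ : Fin (m + 2)).succAbove j).val)) = 0 := by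
      intro i
      set σ : Equiv.Perm (Fin (m + 1)) := Equiv.swap i.castSucc i.succ with hσ
      have hj : ∀ j : Fin (m + 1), ((i.castSucc.succ : Fin (m + 2)).succAbove j).val ≠
          (i.succ : Fin (m + 1)).val := by
        intro j hj
        have := Fin.succAbove_ne (i.castSucc.succ : Fin (m + 2)) j
        apply this
        apply Fin.ext
        rw [hj]
        simp
      have hs : ∀ (j : ℕ), j ≠ (i.succ : Fin (m + 1)).val →
          ∀ s, (σ s).val < j ↔ s.val < j := by
        intro j hj s
        rw [Fin.val_succ] at hj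
        rcases eq_or_ne s i.castSucc with rfl | h2
        · rw [hσ, Equiv.swap_apply_left, Fin.val_succ, Fin.val_castSucc]
          omega
        · rcases eq_or_ne s i.succ with rfl | h3
          · rw [hσ, Equiv.swap_apply_right, Fin.val_succ, Fin.val_castSucc]
            omega
          · rw [hσ, Equiv.swap_apply_of_ne_of_ne h2 h3]
      have hf : ∀ w : Fin (m + 1) → Fin N,
          D m (fun j => L (vx (w ∘ σ) ((i.castSucc.succ : Fin (m + 2)).succAbove j).val)) =
          D m (fun j => L (vx w ((i.castSucc.succ : Fin (m + 2)).succAbove j).val)) := by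
        intro w
        congr 1
        funext j
        rw [vx_perm w σ _ (hs _ (hj j))]
      refine Finset.sum_involution (fun w _ => w ∘ σ) (fun w _ => ?_) (fun w _ hw he => ?_)
        (fun w _ => mem_univ _) (fun w _ => ?_)
      · rw [hf w]
        exact CharTwo.add_self_eq_zero _
      · apply hw
        have hpq : w i.castSucc = w i.succ := by
          have := congrFun he i.castSucc
          rw [Function.comp_apply, hσ, Equiv.swap_apply_left] at this
          exact this.symm
        obtain ⟨c, hc⟩ := missing w i.castSucc i.succ (by simp) hpq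
        refine D_zero c fun j => ?_
        obtain ⟨a, -, ha⟩ := h (vx w ((i.castSucc.succ : Fin (m + 2)).succAbove j).val)
          (vx_card _ _) (vx_le _ _)
        rw [← ha]
        exact hc _ (hj j) a
      · funext s
        simp [hσ]
    -- the two other facets
    set G : ℕ → ZMod 2 := fun b =>
      ∑ u : Fin m → Fin N, D m (fun j => L (b ::ₘ vx u j.val)) with hG
    have hfirst : ∑ w : Fin (m + 1) → Fin N,
        D m (fun j => L (vx w ((0 : Fin (m + 2)).succAbove j).val)) =
        ∑ a : Fin N, G (a.val + 1) := by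
      rw [← (Fin.consEquiv fun _ : Fin (m + 1) => Fin N).sum_comp, Fintype.sum_prod_type]
      refine Finset.sum_congr rfl fun a _ => Finset.sum_congr rfl fun u _ => ?_
      congr 1
      funext j
      rw [Fin.succAbove_zero, Fin.val_succ]
      exact congrArg L (vx_cons a u j.val)
    have hlast : ∑ w : Fin (m + 1) → Fin N,
        D m (fun j => L (vx w (((Fin.last m).succ : Fin (m + 2)).succAbove j).val)) =
        ∑ a : Fin N, G a.val := by
      rw [← (Fin.snocEquiv fun _ : Fin (m + 1) => Fin N).sum_comp, Fintype.sum_prod_type]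
      refine Finset.sum_congr rfl fun b _ => Finset.sum_congr rfl fun u _ => ?_
      congr 1
      funext j
      rw [Fin.succ_last, Fin.succAbove_last, Fin.val_castSucc]
      exact congrArg L (vx_snoc b u j.val (Nat.lt_succ_iff.1 j.isLt))
    rw [Finset.sum_eq_zero (fun i _ => hmid i), zero_add, hfirst, hlast,
      ← Finset.sum_add_distrib]
    have htel : ∑ a : Fin N, (G (a.val + 1) + G a.val) = G N - G 0 := by
      rw [Fin.sum_univ_eq_sum_range (fun a => G (a + 1) + G a) N, ← Finset.sum_range_sub]
      refine Finset.sum_congr rfl fun a _ => ?_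
      rw [CharTwo.sub_eq_add]
    rw [htel]
    have hG0 : G 0 = 0 := by
      refine Finset.sum_eq_zero fun u _ => D_zero 0 fun j => ?_
      obtain ⟨a, -, ha⟩ := h (0 ::ₘ vx u j.val) (by rw [Multiset.card_cons, vx_card])
        (fun t ht => by
          rcases Multiset.mem_cons.1 ht with rfl | ht
          · exact Nat.zero_le _
          · exact vx_le _ _ t ht)
      rw [← ha, Multiset.filter_cons_of_pos (p := fun x => x ≤ a) _ (Nat.zero_le a),
        Multiset.card_cons]
      exact Nat.succ_ne_zero _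
    have hGN : G N = 1 := by
      refine ih N (fun s => L (N ::ₘ s)) fun s hs1 hs2 => ?_
      obtain ⟨a, ha1, ha2⟩ := h (N ::ₘ s) (by rw [Multiset.card_cons, hs1]) (fun t ht => by
          rcases Multiset.mem_cons.1 ht with rfl | ht
          · exact le_rfl
          · exact hs2 t ht)
      refine ⟨a, ha1, ?_⟩
      show _ = L (N ::ₘ s)
      rw [← ha2, Multiset.filter_cons_of_neg (p := fun x => x ≤ a) _ (not_le.2 ha1)]
    rw [hG0, hGN, sub_zero]

open scoped Classical in
/-- the labelling as a function of multisets -/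
noncomputable def lb {k : ℕ} (lab : (Fin k → ℕ) → Fin (k + 1)) (s : Multiset ℕ) : ℕ :=
  if h : ∃ x : Fin k → ℕ, Monotone x ∧ ((List.ofFn x : List ℕ) : Multiset ℕ) = s then
    (lab h.choose).val else 0

theorem lb_eq {k : ℕ} (lab : (Fin k → ℕ) → Fin (k + 1)) (x : Fin k → ℕ) (hx : Monotone x) :
    lb lab ((List.ofFn x : List ℕ) : Multiset ℕ) = (lab x).val := by
  have h : ∃ y : Fin k → ℕ, Monotone y ∧ ((List.ofFn y : List ℕ) : Multiset ℕ) =
    ((List.ofFn x : List ℕ) : Multiset ℕ) := ⟨x, hx, rfl⟩
  unfold lb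
  rw [dif_pos h]
  have h1 : h.choose = x := by
    obtain ⟨h1, h2⟩ := h.choose_spec
    exact List.ofFn_injective (List.Perm.eq_of_sortedLE h1.sortedLE_ofFn hx.sortedLE_ofFn
      (Multiset.coe_eq_coe.1 h2))
  rw [h1]

theorem exists_mono {k : ℕ} (s : Multiset ℕ) (hs : Multiset.card s = k) :
    ∃ x : Fin k → ℕ, Monotone x ∧ ((List.ofFn x : List ℕ) : Multiset ℕ) = s := by
  subst hs
  induction s using Quotient.inductionOn with
  | h l =>
    refine ⟨l.get ∘ Tuple.sort l.get, Tuple.monotone_sort _, ?_⟩
    refine Multiset.coe_eq_coe.2 ((Equiv.Perm.ofFn_comp_perm (Tuple.sort l.get) l.get).trans ?_)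
    rw [List.ofFn_get]

theorem gap_count {k N : ℕ} (x : Fin k → ℕ) (hx : Monotone x) (hN : ∀ i, x i ≤ N)
    (j : Fin (k + 1)) (h : Pool.Agent.H56.EH.gap N x j ≠ 0) :
    ∃ a < N, (univ.filter fun i : Fin k => x i ≤ a).card = j.val := by
  unfold Pool.Agent.H56.EH.gap at h
  have hcard : (univ.filter fun i : Fin k => i.val < j.val).card = j.val := by
    have h1 : (univ.filter fun i : Fin k => i.val < j.val).card =
        (Finset.range j.val).card := by
      refine Finset.card_bij (fun i _ => i.val) (fun i hi => ?_) (fun a _ b _ hab => Fin.ext hab)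
        fun b hb => ?_
      · exact Finset.mem_range.2 (Finset.mem_filter.1 hi).2
      · have h2 := Finset.mem_range.1 hb
        have h3 := j.isLt
        exact ⟨⟨b, by omega⟩, Finset.mem_filter.2 ⟨mem_univ _, h2⟩, rfl⟩
    rw [h1, Finset.card_range]
  have hlow : ∀ i : Fin k, i.val < j.val → x i ≤ if h : 0 < j.val then x ⟨j.val - 1, by omega⟩
      else 0 := by
    intro i hi
    rw [dif_pos (by omega)]
    exact hx (Fin.le_def.2 (by simp only []; omega))
  have hup : ∀ i : Fin k, ¬ i.val < j.val →
      (if h : j.val < k then x ⟨j.val, h⟩ else N) ≤ x i := by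
    intro i hi
    have h1 := i.isLt
    rw [dif_pos (by omega)]
    exact hx (Fin.le_def.2 (by simp only []; omega))
  have hTN : (if h : j.val < k then x ⟨j.val, h⟩ else N) ≤ N := by
    split_ifs with h1
    · exact hN _
    · exact le_rfl
  generalize (if h : j.val < k then x ⟨j.val, h⟩ else N) = T at h hup hTN
  generalize (if h : 0 < j.val then x ⟨j.val - 1, by omega⟩ else 0) = lo at h hlow
  refine ⟨T - 1, by omega, ?_⟩
  rw [← hcard]
  congr 1
  ext i
  simp only [mem_filter, mem_univ, true_and]
  constructor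
  · intro h1
    by_contra h2
    have := hup i h2
    omega
  · intro h1
    have := hlow i h1
    omega

/-- **KKM** -/
theorem kkm (k N : ℕ) (lab : (Fin k → ℕ) → Fin (k + 1))
    (hlab : ∀ x, Monotone x → (∀ i, x i ≤ N) → Pool.Agent.H56.EH.gap N x (lab x) ≠ 0) :
    ∃ x, Monotone x ∧ (∀ i, x i ≤ N) ∧ ∀ j : Fin (k + 1), ∃ y, Monotone y ∧ (∀ i, y i ≤ N) ∧
      (∀ i, x i ≤ y i ∧ y i ≤ x i + 1) ∧ lab y = j := by
  have hSp : Sp k N (lb lab) := by
    intro s hs1 hs2
    obtain ⟨x, hx, rfl⟩ := exists_mono s hs1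
    have hxN : ∀ i, x i ≤ N := fun i => hs2 _ (by
      rw [Multiset.mem_coe, List.mem_ofFn]
      exact ⟨i, rfl⟩)
    obtain ⟨a, ha1, ha2⟩ := gap_count x hx hxN (lab x) (hlab x hx hxN)
    refine ⟨a, ha1, ?_⟩
    rw [lb_eq lab x hx, ← ha2]
    have h1 : ((List.ofFn x : List ℕ) : Multiset ℕ) = (univ : Finset (Fin k)).val.map x := by
      rw [Fin.univ_val_map]
    rw [h1, Multiset.filter_map, Multiset.card_map]
    rfl
  have h1 := S_one k N (lb lab) hSp
  obtain ⟨w, -, hw⟩ := Finset.exists_ne_zero_of_sum_ne_zero (h1 ▸ one_ne_zero)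
  set key : Fin k → ℕ ×ₗ (Fin k)ᵒᵈ := fun s => toLex ((w s).val, OrderDual.toDual s) with hkey
  set σ : Equiv.Perm (Fin k) := Tuple.sort key with hσ
  have hmono : ∀ i i' : Fin k, i ≤ i' → (w (σ i)).val < (w (σ i')).val ∨
      ((w (σ i)).val = (w (σ i')).val ∧ (σ i').val ≤ (σ i).val) := by
    intro i i' hii
    have h2 : key (σ i) ≤ key (σ i') := Tuple.monotone_sort key hii
    rw [hkey] at h2
    rcases Prod.Lex.toLex_le_toLex.1 h2 with h3 | ⟨h3, h4⟩
    · exact Or.inl h3
    · exact Or.inr ⟨h3, Fin.le_def.1 (OrderDual.toDual_le_toDual.1 h4)⟩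
  have hy : ∀ j : ℕ, Monotone fun i => (w (σ i)).val + if (σ i).val < j then 1 else 0 := by
    intro j i i' hii
    show (w (σ i)).val + (if (σ i).val < j then 1 else 0) ≤
      (w (σ i')).val + if (σ i').val < j then 1 else 0
    rcases hmono i i' hii with h3 | ⟨h3, h4⟩
    · split_ifs <;> omega
    · split_ifs <;> omega
  refine ⟨fun i => (w (σ i)).val, ?_, fun i => (w (σ i)).isLt.le, fun c => ?_⟩
  · intro i i' hii
    show (w (σ i)).val ≤ (w (σ i')).val
    rcases hmono i i' hii with h3 | ⟨h3, h4⟩ <;> omega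
  · obtain ⟨j, hj⟩ : ∃ j : Fin (k + 1), lb lab (vx w j.val) = c.val := by
      by_contra hcon
      push Not at hcon
      exact hw (D_zero c hcon)
    refine ⟨fun i => (w (σ i)).val + if (σ i).val < j.val then 1 else 0, hy j.val, fun i => ?_,
      fun i => ?_, ?_⟩
    · have := (w (σ i)).isLt
      show (w (σ i)).val + (if (σ i).val < j.val then 1 else 0) ≤ N
      split_ifs <;> omega
    · show (w (σ i)).val ≤ (w (σ i)).val + (if (σ i).val < j.val then 1 else 0) ∧
        (w (σ i)).val + (if (σ i).val < j.val then 1 else 0) ≤ (w (σ i)).val + 1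
      split_ifs <;> omega
    · apply Fin.ext
      rw [← hj, ← lb_eq lab _ (hy j.val)]
      congr 1
      unfold vx
      rw [Multiset.coe_eq_coe]
      exact Equiv.Perm.ofFn_comp_perm σ
        (fun s : Fin k => (w s).val + if s.val < j.val then 1 else 0)

end Pool.Agent.H57.EH
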